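import Mathlib

set_option autoImplicit false

namespace Pool.Agent.Y80.Shang

/-- Characters of the maximal torus of `PSL_3`: Laurent polynomials in the simple roots; the
exponent `(m, n)` stands for the weight `m α₁ + n α₂`. -/
abbrev TorusChar := AddMonoidAlgebra ℤ (ℤ × ℤ)

/-- The weight `e^{m α₁ + n α₂}`. -/
noncomputable def wt (m n : ℤ) : TorusChar := AddMonoidAlgebra.single (m, n) 1

/-- The six roots. -/
def roots : List (ℤ × ℤ) := [(1, 0), (0, 1), (1, 1), (-1, 0), (0, -1), (-1, -1)]

/-- Multiplicity of the simple `PSL_3`-module of dominant highest weight `μ` in the class with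
Weyl-invariant character `f`: the coefficient of `e^μ` in `f · ∏_{α > 0} (1 - e^{-α})`. -/
noncomputable def mult (μ : ℤ × ℤ) (f : TorusChar) : ℤ :=
  (f * ((1 - wt (-1) 0) * (1 - wt 0 (-1)) * (1 - wt (-1) (-1)))).coeff μ

/-- Formal characters of virtual `GL_d × PSL_3`-modules, completed in the `GL_d` degree. -/
abbrev Char (d : ℕ) := MvPowerSeries (Fin d) TorusChar

/-- Integer powers of a series with constant coefficient one. -/
noncomputable def zpw {d : ℕ} (f : Char d) (n : ℤ) : Char d :=
  if 0 ≤ n then f ^ n.toNat else (MvPowerSeries.invOfUnit f 1) ^ (-n).toNat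

/-- `λ` of a one dimensional module of weight `x^α e^μ`. -/
noncomputable def lamOne {d : ℕ} (α : Fin d →₀ ℕ) (μ : ℤ × ℤ) : Char d :=
  1 - MvPowerSeries.monomial α (wt μ.1 μ.2)

/-- `λ` of `p · x^α [L(α₁+α₂)] + q · x^α [L(0)]`: each of the six roots is a weight of the adjoint
module with multiplicity one, the zero weight has multiplicity two. -/
noncomputable def lamTerm {d : ℕ} (α : Fin d →₀ ℕ) (p q : ℤ) : Char d :=
  zpw (lamOne α (0, 0)) (2 * p + q) * (roots.map fun μ => zpw (lamOne α μ) p).prod

/-- The coefficient of `x^β` in `Φ = λ(a [L(α₁+α₂)] + b [L(0)])`. Only the terms `x^α` with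
`0 ≠ α ≤ β` contribute to it. -/
noncomputable def phi {d : ℕ} (a b : MvPowerSeries (Fin d) ℤ) (β : Fin d →₀ ℕ) : TorusChar :=
  MvPowerSeries.coeff β (∏ α ∈ (Finset.Icc 0 β).erase 0,
    lamTerm α (MvPowerSeries.coeff α a) (MvPowerSeries.coeff α b))

/-- `a` is the formal character of an element of the augmentation ideal `R_+` of the completed
Grothendieck ring of polynomial `GL_d`-representations: a symmetric series without constant
term. -/
def InAug {d : ℕ} (a : MvPowerSeries (Fin d) ℤ) : Prop :=
  MvPowerSeries.coeff 0 a = 0 ∧ ∀ (σ : Equiv.Perm (Fin d)) (α : Fin d →₀ ℕ),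
    MvPowerSeries.coeff (α.mapDomain σ) a = MvPowerSeries.coeff α a

/-- The defining property of the pair `(a(V), b(V))` for `dim V = d`:
`[Φ : [L(0)]] = 1` and `[Φ : [L(α₁+α₂)]] = -[V]`. -/
structure IsShangPair {d : ℕ} (a b : MvPowerSeries (Fin d) ℤ) : Prop where
  aug_a : InAug a
  aug_b : InAug b
  trivial_part : ∀ β, mult (0, 0) (phi a b β) = if β = 0 then 1 else 0
  adjoint_part : ∀ β, mult (1, 1) (phi a b β) =
    if ∃ i, β = Finsupp.single i 1 then -1 else 0

/-- The number of occurrences of each generator in a nonassociative word. -/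
noncomputable def content {d : ℕ} : FreeMagma (Fin d) → (Fin d →₀ ℕ)
  | .of i => Finsupp.single i 1
  | .mul x y => content x + content y

/-- The ideal of the free nonassociative algebra whose quotient is the free alternative algebra. -/
noncomputable def altIdeal (k : Type*) [Field k] (d : ℕ) : Submodule k (FreeNonUnitalNonAssocAlgebra k (Fin d)) :=
  sInf {I | (∀ a b, (a * a) * b - a * (a * b) ∈ I ∧ (b * a) * a - b * (a * a) ∈ I) ∧
    ∀ a, ∀ x ∈ I, a * x ∈ I ∧ x * a ∈ I}

/-- The multihomogeneous component of degree `α` (the `α`-weight space) of the free alternative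
algebra on `d` generators. -/
noncomputable def altComponent (k : Type*) [Field k] (d : ℕ) (α : Fin d →₀ ℕ) :
    Submodule k (FreeNonUnitalNonAssocAlgebra k (Fin d) ⧸ altIdeal k d) :=
  Submodule.map (altIdeal k d).mkQ
    (Submodule.span k {x | ∃ w : FreeMagma (Fin d), content w = α ∧ x = MonoidAlgebra.single w 1})

/-- The formal character of the free alternative algebra `Alt(V)`, `dim V = d`. -/
noncomputable def altChar (k : Type*) [Field k] (d : ℕ) : MvPowerSeries (Fin d) ℤ :=
  fun α => (Module.finrank k (altComponent k d α) : ℤ)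

end Pool.Agent.Y80.Shang
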