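import Pool.Agent.Y80.Shang.Symm

set_option autoImplicit false

namespace Pool.Agent.Y80.Shang

open MvPowerSeries

variable {d : ℕ}

theorem mult_one0 : mult (0, 0) 1 = 1 := by
  have := m0 0 (by norm_num)
  simpa using this

theorem mult_one1 : mult (1, 1) 1 = 0 := by
  have := m1 0 (by norm_num)
  simpa using this

theorem mult_adj0 : mult (0, 0) adjC = 0 := by
  have := m0 1 (by norm_num)
  simpa using this

theorem mult_adj1 : mult (1, 1) adjC = 1 := by
  have := m1 1 (by norm_num)
  simpa using this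

theorem mult_sub (μ : ℤ × ℤ) (f g : TorusChar) : mult μ (f - g) = mult μ f - mult μ g := by
  simp [mult, sub_mul]

theorem mult_lin0 (x y : ℤ) : mult (0, 0) ((x : TorusChar) * adjC + y) = y := by
  have e : (x : TorusChar) * adjC + y = x • adjC + y • (1 : TorusChar) := by
    simp [zsmul_eq_mul]
  rw [e, mult_add, mult_smul, mult_smul, mult_adj0, mult_one0]
  ring

theorem mult_lin1 (x y : ℤ) : mult (1, 1) ((x : TorusChar) * adjC + y) = x := by
  have e : (x : TorusChar) * adjC + y = x • adjC + y • (1 : TorusChar) := by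
    simp [zsmul_eq_mul]
  rw [e, mult_add, mult_smul, mult_smul, mult_adj1, mult_one1]
  ring

/-- the part of `phi` coming from lower coefficients -/
noncomputable def low (F : (Fin d →₀ ℕ) → ℤ × ℤ) (β : Fin d →₀ ℕ) : TorusChar :=
  coeff β (∏ α ∈ ((Finset.Icc 0 β).erase 0).erase β, lamTerm α (F α).1 (F α).2)

theorem low_congr (F G : (Fin d →₀ ℕ) → ℤ × ℤ) (β : Fin d →₀ ℕ)
    (h : ∀ α, α < β → α ≠ 0 → F α = G α) : low F β = low G β := by
  have e : ∏ α ∈ ((Finset.Icc 0 β).erase 0).erase β, lamTerm α (F α).1 (F α).2 =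
      ∏ α ∈ ((Finset.Icc 0 β).erase 0).erase β, lamTerm α (G α).1 (G α).2 := by
    refine Finset.prod_congr rfl fun α hα => ?_
    rw [Finset.mem_erase, Finset.mem_erase, Finset.mem_Icc] at hα
    rw [h α (lt_of_le_of_ne hα.2.2.2 hα.1) hα.2.1]
  rw [low, low, e]

theorem not_add_self_le {β : Fin d →₀ ℕ} (hβ : β ≠ 0) : ¬ (β + β ≤ β) := by
  intro h
  apply hβ
  ext i
  have := h i
  simp only [Finsupp.add_apply] at this
  simp only [Finsupp.coe_zero, Pi.zero_apply]
  omega

theorem phi_eq_low (a b : MvPowerSeries (Fin d) ℤ) (β : Fin d →₀ ℕ) (hβ : β ≠ 0) :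
    phi a b β = low (fun α => (coeff α a, coeff α b)) β - (coeff β a * adjC + coeff β b) := by
  have hmem : β ∈ (Finset.Icc 0 β).erase 0 :=
    Finset.mem_erase.mpr ⟨hβ, Finset.mem_Icc.mpr ⟨bot_le, le_rfl⟩⟩
  rw [phi, ← Finset.mul_prod_erase _ _ hmem, coeff_lamTerm_mul (not_add_self_le hβ),
    if_pos le_rfl, tsub_self, low]
  have : coeff (0 : Fin d →₀ ℕ) (∏ α ∈ ((Finset.Icc 0 β).erase 0).erase β,
      lamTerm α (coeff α a) (coeff α b)) = 1 := by
    rw [coeff_zero_eq_constantCoeff_apply, map_prod]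
    apply Finset.prod_eq_one
    intro α hα
    rw [Finset.mem_erase, Finset.mem_erase] at hα
    exact constantCoeff_lamTerm hα.2.1 _ _
  rw [this, mul_one]

open Classical in
/-- the solution -/
noncomputable def sol (β : Fin d →₀ ℕ) : ℤ × ℤ :=
  if β = 0 then (0, 0) else
    (mult (1, 1) (coeff β (∏ α : {x // x ∈ ((Finset.Icc 0 β).erase 0).erase β},
        lamTerm α.1 (sol α.1).1 (sol α.1).2)) + (if ∃ i, β = Finsupp.single i 1 then 1 else 0),
      mult (0, 0) (coeff β (∏ α : {x // x ∈ ((Finset.Icc 0 β).erase 0).erase β},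
        lamTerm α.1 (sol α.1).1 (sol α.1).2)))
  termination_by ∑ i, β i
  decreasing_by
    all_goals
      obtain ⟨α, hα⟩ := α
      simp only
      rw [Finset.mem_erase, Finset.mem_erase, Finset.mem_Icc] at hα
      obtain ⟨h1, -, -, h4⟩ := hα
      apply Finset.sum_lt_sum (fun i _ => h4 i)
      by_contra hcon
      push Not at hcon
      apply h1
      ext i
      exact le_antisymm (h4 i) (hcon i (Finset.mem_univ i))

open Classical in
theorem sol_eq (β : Fin d →₀ ℕ) (hβ : β ≠ 0) : sol β =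
    (mult (1, 1) (low sol β) + (if ∃ i, β = Finsupp.single i 1 then 1 else 0),
      mult (0, 0) (low sol β)) := by
  have h : (∏ α : {x // x ∈ ((Finset.Icc 0 β).erase 0).erase β},
        lamTerm α.1 (sol α.1).1 (sol α.1).2) =
      ∏ α ∈ ((Finset.Icc 0 β).erase 0).erase β, lamTerm α (sol α).1 (sol α).2 :=
    Finset.prod_coe_sort (((Finset.Icc 0 β).erase 0).erase β)
      (fun α => lamTerm α (sol α).1 (sol α).2)
  rw [sol, if_neg hβ, h, low]

theorem sol_zero : sol (0 : Fin d →₀ ℕ) = (0, 0) := by rw [sol, if_pos rfl]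

/-- the four conditions without symmetry -/
structure IsSol (a b : MvPowerSeries (Fin d) ℤ) : Prop where
  zero_a : coeff 0 a = 0
  zero_b : coeff 0 b = 0
  trivial_part : ∀ β, mult (0, 0) (phi a b β) = if β = 0 then 1 else 0
  adjoint_part : ∀ β, mult (1, 1) (phi a b β) =
    if ∃ i, β = Finsupp.single i 1 then -1 else 0

theorem isSol_iff (a b : MvPowerSeries (Fin d) ℤ) : IsSol a b ↔
    ∀ β, (coeff β a, coeff β b) = sol β := by
  classical
  have key : ∀ (β : Fin d →₀ ℕ), β ≠ 0 → (∀ α, α < β → (coeff α a, coeff α b) = sol α) →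
      ((mult (0, 0) (phi a b β) = if β = 0 then 1 else 0) ∧
        (mult (1, 1) (phi a b β) = if ∃ i, β = Finsupp.single i 1 then -1 else 0) ↔
        (coeff β a, coeff β b) = sol β) := by
    intro β hβ hlow
    rw [phi_eq_low a b β hβ, low_congr _ sol β (fun α h _ => hlow α h), mult_sub, mult_sub,
      mult_lin0, mult_lin1, if_neg hβ, sol_eq β hβ, Prod.mk.injEq]
    constructor
    · rintro ⟨h1, h2⟩
      refine ⟨?_, by linarith⟩
      split_ifs at h2 ⊢ <;> linarith
    · rintro ⟨h1, h2⟩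
      refine ⟨by linarith, ?_⟩
      split_ifs at h1 ⊢ <;> linarith
  constructor
  · intro h β
    induction β using WellFoundedLT.induction with
    | _ β ih =>
      by_cases hβ : β = 0
      · subst hβ
        rw [sol_zero, h.zero_a, h.zero_b]
      · exact (key β hβ ih).mp ⟨h.trivial_part β, h.adjoint_part β⟩
  · intro h
    have h0 := h 0
    rw [sol_zero, Prod.mk.injEq] at h0
    refine ⟨h0.1, h0.2, ?_, ?_⟩
    · intro β
      by_cases hβ : β = 0
      · subst hβ
        rw [phi_zero, if_pos rfl, mult_one0]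
      · exact ((key β hβ (fun α _ => h α)).mpr (h β)).1
    · intro β
      by_cases hβ : β = 0
      · subst hβ
        rw [phi_zero, if_neg, mult_one1]
        rintro ⟨i, hi⟩
        have := DFunLike.congr_fun hi i
        simp at this
      · exact ((key β hβ (fun α _ => h α)).mpr (h β)).2

/-- permuting the variables -/
noncomputable def permZ (σ : Equiv.Perm (Fin d)) (a : MvPowerSeries (Fin d) ℤ) :
    MvPowerSeries (Fin d) ℤ := fun α => coeff (α.mapDomain σ) a

theorem coeff_permZ (σ : Equiv.Perm (Fin d)) (a : MvPowerSeries (Fin d) ℤ) (α : Fin d →₀ ℕ) :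
    coeff α (permZ σ a) = coeff (α.mapDomain σ) a := rfl

theorem rename_invOfUnit (σ : Equiv.Perm (Fin d)) (f : Char d) (h1 : constantCoeff f = 1) :
    rename σ (invOfUnit f 1) = invOfUnit (rename σ f) 1 := by
  have e1 : invOfUnit f 1 * f = 1 := invOfUnit_mul f 1 (by simpa using h1)
  have e2 : rename σ f * invOfUnit (rename σ f) 1 = 1 :=
    mul_invOfUnit _ 1 (by rw [constantCoeff_rename]; simpa using h1)
  have e3 := congrArg (rename σ) e1
  rw [map_mul, map_one (rename σ)] at e3
  calc rename σ (invOfUnit f 1) = rename σ (invOfUnit f 1) *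
      (rename σ f * invOfUnit (rename σ f) 1) := by rw [e2, mul_one]
    _ = _ := by rw [← mul_assoc, e3, one_mul]

theorem rename_zpw (σ : Equiv.Perm (Fin d)) (f : Char d) (h1 : constantCoeff f = 1) (n : ℤ) :
    rename σ (zpw f n) = zpw (rename σ f) n := by
  unfold zpw
  split_ifs
  · rw [map_pow]
  · rw [map_pow, rename_invOfUnit σ f h1]

theorem rename_lamOne (σ : Equiv.Perm (Fin d)) (α : Fin d →₀ ℕ) (μ : ℤ × ℤ) :
    rename σ (lamOne α μ) = lamOne (α.mapDomain σ) μ := by
  rw [lamOne, map_sub, map_one (rename σ), rename_monomial, lamOne]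

theorem rename_lamTerm (σ : Equiv.Perm (Fin d)) {α : Fin d →₀ ℕ} (hα : α ≠ 0) (p q : ℤ) :
    rename σ (lamTerm α p q) = lamTerm (α.mapDomain σ) p q := by
  unfold lamTerm roots
  simp only [List.map_cons, List.map_nil, List.prod_cons, List.prod_nil, map_mul, mul_one,
    rename_zpw σ _ (constantCoeff_lamOne hα _), rename_lamOne]

theorem coeff_rename_perm (σ : Equiv.Perm (Fin d)) (f : Char d) (β : Fin d →₀ ℕ) :
    coeff (β.mapDomain σ) (rename σ f) = coeff β f := by
  have := coeff_embDomain_rename σ.toEmbedding f β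
  rw [Finsupp.embDomain_eq_mapDomain] at this
  exact this

theorem mapDomain_le (σ : Equiv.Perm (Fin d)) {α β : Fin d →₀ ℕ} (h : α ≤ β) :
    α.mapDomain σ ≤ β.mapDomain σ := by
  intro i
  have e : i = σ (σ.symm i) := by simp
  rw [e, Finsupp.mapDomain_apply σ.injective, Finsupp.mapDomain_apply σ.injective]
  exact h _

theorem mapDomain_symm (σ : Equiv.Perm (Fin d)) (α : Fin d →₀ ℕ) :
    (α.mapDomain σ.symm).mapDomain σ = α := by
  rw [← Finsupp.mapDomain_comp]
  simp

theorem mapDomain_symm' (σ : Equiv.Perm (Fin d)) (α : Fin d →₀ ℕ) :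
    (α.mapDomain σ).mapDomain σ.symm = α := by
  rw [← Finsupp.mapDomain_comp]
  simp

theorem mapDomain_zero_iff (σ : Equiv.Perm (Fin d)) (α : Fin d →₀ ℕ) :
    α.mapDomain σ = 0 ↔ α = 0 := by
  constructor
  · intro h
    rw [← mapDomain_symm' σ α, h, Finsupp.mapDomain_zero]
  · rintro rfl
    exact Finsupp.mapDomain_zero

theorem phi_perm (σ : Equiv.Perm (Fin d)) (a b : MvPowerSeries (Fin d) ℤ) (β : Fin d →₀ ℕ) :
    phi (permZ σ a) (permZ σ b) β = phi a b (β.mapDomain σ) := by
  classical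
  rw [phi, ← coeff_rename_perm σ, map_prod, phi]
  congr 1
  refine Finset.prod_nbij' (fun α => α.mapDomain σ) (fun α => α.mapDomain σ.symm) ?_ ?_ ?_ ?_ ?_
  · intro α hα
    rw [Finset.mem_erase, Finset.mem_Icc] at hα ⊢
    exact ⟨fun h => hα.1 ((mapDomain_zero_iff σ α).mp h), bot_le, mapDomain_le σ hα.2.2⟩
  · intro α hα
    rw [Finset.mem_erase, Finset.mem_Icc] at hα ⊢
    refine ⟨fun h => hα.1 ((mapDomain_zero_iff σ.symm α).mp h), bot_le, ?_⟩
    have := mapDomain_le σ.symm hα.2.2
    rwa [mapDomain_symm'] at this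
  · intro α _; exact mapDomain_symm' σ α
  · intro α _; exact mapDomain_symm σ α
  · intro α hα
    rw [Finset.mem_erase] at hα
    rw [rename_lamTerm σ hα.1, coeff_permZ, coeff_permZ]

theorem IsSol.perm {a b : MvPowerSeries (Fin d) ℤ} (h : IsSol a b) (σ : Equiv.Perm (Fin d)) :
    IsSol (permZ σ a) (permZ σ b) := by
  refine ⟨?_, ?_, ?_, ?_⟩
  · rw [coeff_permZ, Finsupp.mapDomain_zero, h.zero_a]
  · rw [coeff_permZ, Finsupp.mapDomain_zero, h.zero_b]
  · intro β
    rw [phi_perm, h.trivial_part]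
    simp only [mapDomain_zero_iff]
  · intro β
    rw [phi_perm, h.adjoint_part]
    have : (∃ i, β.mapDomain σ = Finsupp.single i 1) ↔ ∃ i, β = Finsupp.single i 1 := by
      constructor
      · rintro ⟨i, hi⟩
        refine ⟨σ.symm i, ?_⟩
        rw [← mapDomain_symm' σ β, hi, Finsupp.mapDomain_single]
      · rintro ⟨i, rfl⟩
        exact ⟨σ i, Finsupp.mapDomain_single⟩
    simp only [this]

theorem IsSol.unique {a b a' b' : MvPowerSeries (Fin d) ℤ} (h : IsSol a b) (h' : IsSol a' b') :
    a = a' ∧ b = b' := by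
  rw [isSol_iff] at h h'
  constructor
  · ext β
    have := (h β).trans (h' β).symm
    exact (Prod.mk.inj this).1
  · ext β
    have := (h β).trans (h' β).symm
    exact (Prod.mk.inj this).2

theorem isShangPair_iff (a b : MvPowerSeries (Fin d) ℤ) : IsShangPair a b ↔ IsSol a b := by
  constructor
  · intro h
    exact ⟨h.aug_a.1, h.aug_b.1, h.trivial_part, h.adjoint_part⟩
  · intro h
    refine ⟨⟨h.zero_a, ?_⟩, ⟨h.zero_b, ?_⟩, h.trivial_part, h.adjoint_part⟩
    · intro σ α
      have := (IsSol.unique h (h.perm σ)).1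
      conv_rhs => rw [this]
      rfl
    · intro σ α
      have := (IsSol.unique h (h.perm σ)).2
      conv_rhs => rw [this]
      rfl

/-- the first component of the solution -/
noncomputable def solA (d : ℕ) : MvPowerSeries (Fin d) ℤ := fun β => (sol β).1

/-- the second component of the solution -/
noncomputable def solB (d : ℕ) : MvPowerSeries (Fin d) ℤ := fun β => (sol β).2

theorem isSol_sol (d : ℕ) : IsSol (solA d) (solB d) := by
  rw [isSol_iff]
  intro β
  rfl

theorem existsUnique_pair (d : ℕ) :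
    ∃! p : MvPowerSeries (Fin d) ℤ × MvPowerSeries (Fin d) ℤ, IsShangPair p.1 p.2 := by
  refine ⟨(solA d, solB d), (isShangPair_iff _ _).mpr (isSol_sol d), ?_⟩
  rintro ⟨a, b⟩ h
  have := IsSol.unique ((isShangPair_iff _ _).mp h) (isSol_sol d)
  simp only at this ⊢
  rw [this.1, this.2]

end Pool.Agent.Y80.Shang
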