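import Pool.Agent.Y80.Shang.Defs

set_option autoImplicit false

namespace Pool.Agent.Y80.Shang

theorem wt_mul (a b c d : ℤ) : wt a b * wt c d = wt (a + c) (b + d) := by
  simp [wt, AddMonoidAlgebra.single_mul_single]

theorem wt_zero : wt 0 0 = 1 := rfl

/-- polynomial addition for coefficient lists -/
def add1 : List ℤ → List ℤ → List ℤ
  | [], m => m
  | a :: l, [] => a :: l
  | a :: l, b :: m => (a + b) :: add1 l m

def add2 : List (List ℤ) → List (List ℤ) → List (List ℤ)
  | [], m => m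
  | a :: l, [] => a :: l
  | a :: l, b :: m => add1 a b :: add2 l m

noncomputable def ev1 : List ℤ → TorusChar
  | [] => 0
  | a :: l => (a : TorusChar) + wt 1 0 * ev1 l

noncomputable def ev2 : List (List ℤ) → TorusChar
  | [] => 0
  | r :: L => ev1 r + wt 0 1 * ev2 L

theorem ev1_add (l m : List ℤ) : ev1 (add1 l m) = ev1 l + ev1 m := by
  induction l generalizing m with
  | nil => simp [add1, ev1]
  | cons a l ih =>
    cases m with
    | nil => simp [add1, ev1]
    | cons b m =>
      simp only [add1, ev1, ih]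
      push_cast
      ring

theorem ev2_add (l m : List (List ℤ)) : ev2 (add2 l m) = ev2 l + ev2 m := by
  induction l generalizing m with
  | nil => simp [add2, ev2]
  | cons a l ih =>
    cases m with
    | nil => simp [add2, ev2]
    | cons b m =>
      simp only [add2, ev2, ih, ev1_add]
      ring

def shY (L : List (List ℤ)) : List (List ℤ) := L.map fun r => 0 :: r
def shZ (L : List (List ℤ)) : List (List ℤ) := [] :: L

theorem ev2_shY (L : List (List ℤ)) : ev2 (shY L) = wt 1 0 * ev2 L := by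
  induction L with
  | nil => simp [shY, ev2]
  | cons r L ih =>
    have h : shY (r :: L) = (0 :: r) :: shY L := rfl
    rw [h]
    simp only [ev2, ev1, ih]
    push_cast
    ring

theorem ev2_shZ (L : List (List ℤ)) : ev2 (shZ L) = wt 0 1 * ev2 L := by
  simp [shZ, ev2, ev1]

/-- multiplication by `yz` times the adjoint character -/
def mulAdj (L : List (List ℤ)) : List (List ℤ) :=
  let y := shY L
  let z := shZ L
  let yz := shZ y
  let yyz := shY yz
  let yzz := shZ yz
  let yyzz := shY yzz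
  add2 L (add2 y (add2 z (add2 yz (add2 yz (add2 yyz (add2 yzz yyzz))))))

/-- the character of the adjoint module -/
noncomputable def adjC : TorusChar :=
  2 + (wt 1 0 + wt 0 1 + wt 1 1 + wt (-1) 0 + wt 0 (-1) + wt (-1) (-1))

theorem ev2_mulAdj (L : List (List ℤ)) : ev2 (mulAdj L) = wt 1 1 * adjC * ev2 L := by
  simp only [mulAdj, ev2_add, ev2_shY, ev2_shZ]
  have h : wt 1 1 * adjC = 1 + wt 1 0 + wt 0 1 + 2 * wt 1 1 + wt 2 1 + wt 1 2 + wt 2 2 := by
    simp only [adjC, mul_add, wt_mul, mul_comm _ (2 : TorusChar)]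
    norm_num [wt_zero]
    ring
  have e1 : wt 0 1 * (wt 1 0 * ev2 L) = wt 1 1 * ev2 L := by rw [← mul_assoc, wt_mul]; norm_num
  have e2 : wt 1 0 * (wt 0 1 * (wt 1 0 * ev2 L)) = wt 2 1 * ev2 L := by
    rw [e1, ← mul_assoc, wt_mul]; norm_num
  have e3 : wt 0 1 * (wt 0 1 * (wt 1 0 * ev2 L)) = wt 1 2 * ev2 L := by
    rw [e1, ← mul_assoc, wt_mul]; norm_num
  have e4 : wt 1 0 * (wt 0 1 * (wt 0 1 * (wt 1 0 * ev2 L))) = wt 2 2 * ev2 L := by
    rw [e3, ← mul_assoc, wt_mul]; norm_num
  rw [h, e2, e4, e3, e1]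
  ring

/-- Weyl denominator times `y² z²` -/
def W2 : List (List ℤ) := [[-1, 1], [1, 0, -1], [0, -1, 1]]

noncomputable def weyl : TorusChar :=
  (1 - wt (-1) 0) * (1 - wt 0 (-1)) * (1 - wt (-1) (-1))

theorem ev2_W2 : ev2 W2 = wt 2 2 * weyl := by
  have h : wt 2 2 * weyl = (wt 1 0 - 1) * (wt 0 1 - 1) * (wt 1 1 - 1) := by
    have e : wt 2 2 = wt 1 0 * wt 0 1 * wt 1 1 := by simp [wt_mul]
    have e1 : wt 1 0 * (1 - wt (-1) 0) = wt 1 0 - 1 := by
      rw [mul_sub, wt_mul]; norm_num [wt_zero]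
    have e2 : wt 0 1 * (1 - wt 0 (-1)) = wt 0 1 - 1 := by
      rw [mul_sub, wt_mul]; norm_num [wt_zero]
    have e3 : wt 1 1 * (1 - wt (-1) (-1)) = wt 1 1 - 1 := by
      rw [mul_sub, wt_mul]; norm_num [wt_zero]
    rw [e, weyl, ← e1, ← e2, ← e3]; ring
  rw [h]
  have e : wt 1 1 = wt 1 0 * wt 0 1 := by simp [wt_mul]
  simp only [W2, ev2, ev1, e]
  push_cast
  ring

theorem coeff_one (p q : ℤ) : (1 : TorusChar).coeff (p, q) = if p = 0 ∧ q = 0 then 1 else 0 := by
  rw [← wt_zero, wt]
  rw [AddMonoidAlgebra.coeff_single, Finsupp.single_apply]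
  congr 1
  simp [Prod.ext_iff, eq_comm]

theorem coeff_int (a p q : ℤ) : (a : TorusChar).coeff (p, q) = if p = 0 ∧ q = 0 then a else 0 := by
  have : (a : TorusChar) = a • (1 : TorusChar) := by simp
  rw [this, AddMonoidAlgebra.coeff_smul, Finsupp.smul_apply, coeff_one]
  split_ifs <;> simp

theorem coeff_wt_mul (a b p q : ℤ) (f : TorusChar) :
    (wt a b * f).coeff (p, q) = f.coeff (p - a, q - b) := by
  rw [wt, AddMonoidAlgebra.coeff_single_mul_apply, one_mul]
  congr 1
  ext <;> simp <;> ring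

theorem coeff_ev1 (r : List ℤ) (p q : ℤ) :
    (ev1 r).coeff (p, q) = if 0 ≤ p ∧ q = 0 then r.getD p.toNat 0 else 0 := by
  induction r generalizing p with
  | nil => simp [ev1]
  | cons a l ih =>
    rw [ev1, AddMonoidAlgebra.coeff_add, Finsupp.add_apply, coeff_int, coeff_wt_mul, sub_zero, ih]
    by_cases hp : p = 0
    · subst hp
      simp
    · by_cases h2 : 0 ≤ p - 1
      · have h3 : (0 ≤ p) := by omega
        have h4 : p.toNat = (p - 1).toNat + 1 := by omega
        rw [if_neg (fun h => hp h.1), zero_add, h4, List.getD_cons_succ]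
        simp only [h2, h3]
      · have h3 : ¬ (0 ≤ p) := by omega
        rw [if_neg (fun h => hp h.1), if_neg (fun h => h2 h.1), if_neg (fun h => h3 h.1), add_zero]

theorem coeff_ev2 (L : List (List ℤ)) (p q : ℤ) :
    (ev2 L).coeff (p, q) = if 0 ≤ p ∧ 0 ≤ q then (L.getD q.toNat []).getD p.toNat 0 else 0 := by
  induction L generalizing q with
  | nil => simp [ev2]
  | cons r L ih =>
    rw [ev2, AddMonoidAlgebra.coeff_add, Finsupp.add_apply, coeff_ev1, coeff_wt_mul, sub_zero, ih]
    by_cases hp : q = 0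
    · subst hp
      simp
    · by_cases h2 : 0 ≤ q - 1
      · have h3 : (0 ≤ q) := by omega
        have h4 : q.toNat = (q - 1).toNat + 1 := by omega
        rw [if_neg (fun h => hp h.2), zero_add, h4, List.getD_cons_succ]
        simp only [h2, h3]
      · have h3 : ¬ (0 ≤ q) := by omega
        rw [if_neg (fun h => hp h.2), if_neg (fun h => h2 h.2), if_neg (fun h => h3 h.2), add_zero]

def powL : ℕ → List (List ℤ)
  | 0 => W2
  | n + 1 => mulAdj (powL n)

theorem ev2_powL (n : ℕ) : ev2 (powL n) = wt (n + 2) (n + 2) * (adjC ^ n * weyl) := by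
  induction n with
  | zero => simp [powL, ev2_W2]
  | succ n ih =>
    rw [powL, ev2_mulAdj, ih]
    have e : wt ((n : ℤ) + 1 + 2) (n + 1 + 2) = wt 1 1 * wt (n + 2) (n + 2) := by
      rw [wt_mul]; congr 1 <;> ring
    push_cast
    rw [e, pow_succ]
    ring

theorem mult_adj_pow (n : ℕ) (m : ℕ) :
    mult (m, m) (adjC ^ n) = ((powL n).getD (n + 2 + m) []).getD (n + 2 + m) 0 := by
  have h : (ev2 (powL n)).coeff ((n : ℤ) + 2 + m, (n : ℤ) + 2 + m) = mult (m, m) (adjC ^ n) := by
    rw [ev2_powL, coeff_wt_mul, mult]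
    congr 2 <;> ring
  rw [← h, coeff_ev2, if_pos ⟨by positivity, by positivity⟩]
  congr 1

theorem mult_add (μ : ℤ × ℤ) (f g : TorusChar) : mult μ (f + g) = mult μ f + mult μ g := by
  simp [mult, add_mul]

/-- additive map version -/
noncomputable def multHom (μ : ℤ × ℤ) : TorusChar →+ ℤ where
  toFun := mult μ
  map_zero' := by simp [mult]
  map_add' := mult_add μ

theorem multHom_apply (μ : ℤ × ℤ) (f : TorusChar) : multHom μ f = mult μ f := rfl

theorem mult_smul (μ : ℤ × ℤ) (c : ℤ) (f : TorusChar) : mult μ (c • f) = c * mult μ f := by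
  rw [← multHom_apply, map_zsmul]; simp [multHom_apply]

theorem m0 (n : ℕ) (hn : n < 10) : mult (0, 0) (adjC ^ n) =
    ([1, 0, 1, 2, 8, 32, 145, 702, 3598, 19280] : List ℤ).getD n 0 := by
  have h := mult_adj_pow n 0
  have e : ((0 : ℕ) : ℤ) = 0 := rfl
  rw [e] at h
  rw [h]
  clear h e
  revert n
  decide +kernel

theorem m1 (n : ℕ) (hn : n < 10) : mult (1, 1) (adjC ^ n) =
    ([0, 1, 2, 8, 32, 145, 702, 3598, 19280, 107160] : List ℤ).getD n 0 := by
  have h := mult_adj_pow n 1
  have e : ((1 : ℕ) : ℤ) = 1 := rfl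
  rw [e] at h
  rw [h]
  clear h e
  revert n
  decide +kernel

end Pool.Agent.Y80.Shang
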