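import Pool.Agent.Y80.Shang.Symm

set_option autoImplicit false

namespace Pool.Agent.Y80.Shang

variable (k : Type*) [Field k] {d : ℕ}

/-- the map to the free associative algebra -/
noncomputable def toAssoc (d : ℕ) :
    FreeNonUnitalNonAssocAlgebra k (Fin d) →ₙₐ[k] MonoidAlgebra k (FreeMonoid (Fin d)) :=
  FreeNonUnitalNonAssocAlgebra.lift k fun i => MonoidAlgebra.single (FreeMonoid.of i) 1

def toWord : FreeMagma (Fin d) → FreeMonoid (Fin d)
  | .of i => FreeMonoid.of i
  | .mul x y => toWord x * toWord y

theorem toAssoc_single (w : FreeMagma (Fin d)) :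
    toAssoc k d (MonoidAlgebra.single w 1) = MonoidAlgebra.single (toWord w) 1 := by
  induction w with
  | ih1 i =>
    exact FreeNonUnitalNonAssocAlgebra.lift_of_apply k _ i
  | ih2 x y hx hy =>
    have : (MonoidAlgebra.single (x * y) 1 : FreeNonUnitalNonAssocAlgebra k (Fin d)) =
        MonoidAlgebra.single x 1 * MonoidAlgebra.single y 1 := by
      rw [MonoidAlgebra.single_mul_single, one_mul]
    rw [this, map_mul, hx, hy, MonoidAlgebra.single_mul_single, one_mul]
    rfl

theorem altIdeal_le : altIdeal k d ≤
    LinearMap.ker ((toAssoc k d : FreeNonUnitalNonAssocAlgebra k (Fin d) →ₙₐ[k]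
      MonoidAlgebra k (FreeMonoid (Fin d))) :
      FreeNonUnitalNonAssocAlgebra k (Fin d) →ₗ[k] MonoidAlgebra k (FreeMonoid (Fin d))) := by
  apply sInf_le
  constructor
  · intro a b
    simp [LinearMap.mem_ker, mul_assoc]
  · intro a x hx
    rw [LinearMap.mem_ker] at hx
    have hx' : toAssoc k d x = 0 := hx
    constructor <;> rw [LinearMap.mem_ker]
    · change toAssoc k d (a * x) = 0
      rw [map_mul, hx', mul_zero]
    · change toAssoc k d (x * a) = 0
      rw [map_mul, hx', zero_mul]

noncomputable def altMap (d : ℕ) : (FreeNonUnitalNonAssocAlgebra k (Fin d) ⧸ altIdeal k d) →ₗ[k]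
    MonoidAlgebra k (FreeMonoid (Fin d)) :=
  (altIdeal k d).liftQ _ (altIdeal_le k)

theorem altMap_mk (w : FreeMagma (Fin d)) :
    altMap k d ((altIdeal k d).mkQ (MonoidAlgebra.single w 1)) =
      MonoidAlgebra.single (toWord w) 1 := by
  rw [altMap, Submodule.mkQ_apply, Submodule.liftQ_apply]
  exact toAssoc_single k w

def pw : Fin d → List (Fin d) → FreeMagma (Fin d)
  | x, [] => .of x
  | x, y :: l => .mul (.of x) (pw y l)

theorem toWord_pw (l : List (Fin d)) : ∀ x, toWord (pw x l) = FreeMonoid.ofList (x :: l) := by
  induction l with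
  | nil => intro x; rfl
  | cons y l ih =>
    intro x
    rw [pw, toWord, toWord, ih]
    rfl

theorem content_pw (l : List (Fin d)) : ∀ x, content (pw x l) =
    ((x :: l).map fun i => (Finsupp.single i 1 : Fin d →₀ ℕ)).sum := by
  induction l with
  | nil => intro x; simp [pw, content]
  | cons y l ih =>
    intro x
    rw [pw, content, content, ih]
    simp

theorem sum_content (w : FreeMagma (Fin d)) : ∑ i, content w i = w.length := by
  induction w with
  | ih1 i => simp [content, Finsupp.single_apply, FreeMagma.length]
  | ih2 x y hx hy =>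
    change ∑ i, (content x + content y) i = x.length + y.length
    rw [← hx, ← hy, ← Finset.sum_add_distrib]
    rfl

theorem finite_length (n : ℕ) : {w : FreeMagma (Fin d) | w.length ≤ n}.Finite := by
  induction n with
  | zero =>
    convert Set.finite_empty
    ext w
    simp only [Set.mem_ofPred_eq, Set.mem_empty_iff_false, iff_false]
    have := w.length_pos
    omega
  | succ n ih =>
    refine ((Set.finite_range (FreeMagma.of : Fin d → FreeMagma (Fin d))).union
      (Set.Finite.image2 FreeMagma.mul ih ih)).subset ?_
    intro w hw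
    cases w with
    | of i => exact Or.inl ⟨i, rfl⟩
    | mul x y =>
      have hw' : x.length + y.length ≤ n + 1 := hw
      have h1 := x.length_pos
      have h2 := y.length_pos
      refine Or.inr ⟨x, ?_, y, ?_, rfl⟩
      · change x.length ≤ n; omega
      · change y.length ≤ n; omega

theorem finite_content (α : Fin d →₀ ℕ) : {w : FreeMagma (Fin d) | content w = α}.Finite := by
  refine (finite_length (∑ i, α i)).subset ?_
  intro w hw
  have hw' : content w = α := hw
  change w.length ≤ _
  rw [← sum_content, hw']

instance altComponent_finite (α : Fin d →₀ ℕ) : Module.Finite k (altComponent k d α) := by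
  rw [Module.Finite.iff_fg]
  apply Submodule.FG.map
  apply Submodule.fg_span
  have := (finite_content α).image
    (fun w => (MonoidAlgebra.single w 1 : FreeNonUnitalNonAssocAlgebra k (Fin d)))
  refine this.subset ?_
  rintro x ⟨w, hw, rfl⟩
  exact ⟨w, hw, rfl⟩

/-- the list of letters given by a permutation -/
def pl (hd : 9 ≤ d) (σ : Equiv.Perm (Fin 9)) : List (Fin d) :=
  List.ofFn fun i : Fin 8 => Fin.castLE hd (σ i.succ)

theorem cons_pl (hd : 9 ≤ d) (σ : Equiv.Perm (Fin 9)) :
    Fin.castLE hd (σ 0) :: pl hd σ = List.ofFn fun i : Fin 9 => Fin.castLE hd (σ i) := by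
  rw [pl, List.ofFn_succ (n := 8)]

/-- the first nine generators -/
def nine (hd : 9 ≤ d) : Finset (Fin d) := Finset.univ.map (Fin.castLEEmb hd)

theorem card_nine (hd : 9 ≤ d) : (nine hd).card = 9 := by simp [nine]

theorem content_perm (hd : 9 ≤ d) (σ : Equiv.Perm (Fin 9)) :
    content (pw (Fin.castLE hd (σ 0)) (pl hd σ)) = ind (nine hd) := by
  rw [content_pw, cons_pl, List.map_ofFn, List.sum_ofFn]
  simp only [Function.comp_apply]
  rw [Equiv.sum_comp σ (fun i => (Finsupp.single (Fin.castLE hd i) 1 : Fin d →₀ ℕ))]
  ext j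
  rw [Finsupp.finsetSum_apply, ind_apply]
  simp only [Finsupp.single_apply]
  rw [nine]
  simp only [Finset.mem_map, Finset.mem_univ, true_and, Fin.castLEEmb_apply]
  split_ifs with h
  · obtain ⟨i, hi⟩ := h
    rw [Finset.sum_eq_single i]
    · simp [hi]
    · intro i' _ hne
      rw [if_neg]
      intro h'
      exact hne (Fin.castLE_injective hd (h'.trans hi.symm))
    · simp
  · apply Finset.sum_eq_zero
    intro i _
    rw [if_neg]
    intro h'
    exact h ⟨i, h'⟩

theorem le_finrank (hd : 9 ≤ d) :
    362880 ≤ Module.finrank k (altComponent k d (ind (nine hd))) := by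
  let v : Equiv.Perm (Fin 9) → altComponent k d (ind (nine hd)) := fun σ =>
    ⟨(altIdeal k d).mkQ (MonoidAlgebra.single (pw (Fin.castLE hd (σ 0)) (pl hd σ)) 1),
      Submodule.mem_map_of_mem (Submodule.subset_span ⟨_, content_perm hd σ, rfl⟩)⟩
  have hv : LinearIndependent k v := by
    apply LinearIndependent.of_comp ((altMap k d).comp (Submodule.subtype _))
    have hinj : Function.Injective (fun σ : Equiv.Perm (Fin 9) =>
        (FreeMonoid.ofList (List.ofFn fun i : Fin 9 => Fin.castLE hd (σ i)) :
          FreeMonoid (Fin d))) := by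
      intro σ τ h
      have h' := FreeMonoid.ofList.injective h
      have h'' := List.ofFn_injective h'
      ext i
      have := congrFun h'' i
      exact congrArg Fin.val (Fin.castLE_injective hd this)
    have hli : LinearIndependent k (fun w : FreeMonoid (Fin d) => (Finsupp.single w (1 : k))) :=
      Finsupp.linearIndependent_single_one k _
    have h1 := hli.comp _ hinj
    have h2 := h1.map' (MonoidAlgebra.coeffLinearEquiv (S := k) (M := FreeMonoid (Fin d)) k).symm.toLinearMap
      (LinearEquiv.ker _)
    have h3 : (((altMap k d).comp (Submodule.subtype (altComponent k d (ind (nine hd))))) ∘ v) =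
        (MonoidAlgebra.coeffLinearEquiv (S := k) (M := FreeMonoid (Fin d)) k).symm.toLinearMap ∘
          ((fun w => (Finsupp.single w (1 : k))) ∘ (fun σ : Equiv.Perm (Fin 9) =>
        (FreeMonoid.ofList (List.ofFn fun i : Fin 9 => Fin.castLE hd (σ i)) :
          FreeMonoid (Fin d)))) := by
      funext σ
      simp only [Function.comp_apply, LinearMap.comp_apply, Submodule.subtype_apply, v]
      rw [altMap_mk, toWord_pw, cons_pl]
      rfl
    rw [h3]
    exact h2
  have := hv.fintype_card_le_finrank
  rw [Fintype.card_perm, Fintype.card_fin] at this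
  exact this

end Pool.Agent.Y80.Shang
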