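import Pool.Agent.Y80.Shang.Numeric
import Pool.Agent.Y80.Shang.AltDim
import Pool.Agent.Y80.Shang.Exist

set_option autoImplicit false

namespace Pool.Agent.Y80.Shang

open MvPowerSeries

theorem coeff_nine {d : ℕ} (hd : 9 ≤ d) {a b : MvPowerSeries (Fin d) ℤ} (h : IsShangPair a b) :
    coeff (ind (nine hd)) a = 336364 := by
  classical
  obtain ⟨A, hA⟩ := exists_seq h.aug_a
  obtain ⟨B, hB⟩ := exists_seq h.aug_b
  have hP : ∀ n, n ≤ 9 → ∃ S : Finset (Fin d), S.card = n ∧ phi a b (ind S) = PP A B n := by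
    intro n hn
    obtain ⟨S, _, hS⟩ := Finset.exists_subset_card_eq (s := nine hd) (n := n)
      (by rw [card_nine]; exact hn)
    exact ⟨S, hS, phi_ind_eq A B hA hB n S hS⟩
  rw [hA, card_nine]
  apply solve A B
  · intro n h1 h9
    obtain ⟨S, hS, e⟩ := hP n h9
    rw [← e, h.trivial_part, if_neg]
    intro h0
    rw [← ind_empty] at h0
    have := ind_inj h0
    subst this
    simp at hS
    omega
  · intro n h1 h9
    obtain ⟨S, hS, e⟩ := hP n h9
    rw [← e, h.adjoint_part]
    have hiff : (∃ i, ind S = Finsupp.single i 1) ↔ n = 1 := by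
      have hsing : ∀ i : Fin d, (Finsupp.single i 1 : Fin d →₀ ℕ) = ind {i} := by
        intro i
        ext j
        rw [ind_apply, Finsupp.single_apply]
        simp [eq_comm]
      constructor
      · rintro ⟨i, hi⟩
        rw [hsing] at hi
        have := ind_inj hi
        rw [← hS, this, Finset.card_singleton]
      · intro hn
        rw [hn] at hS
        obtain ⟨i, hi⟩ := Finset.card_eq_one.mp hS
        exact ⟨i, by rw [hi, hsing]⟩
    simp only [hiff]

theorem main (k : Type*) [Field k] (d : ℕ) (hd : 9 ≤ d) :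
    (∃! p : MvPowerSeries (Fin d) ℤ × MvPowerSeries (Fin d) ℤ, IsShangPair p.1 p.2) ∧
      ∀ a b : MvPowerSeries (Fin d) ℤ, IsShangPair a b → a ≠ altChar k d := by
  refine ⟨existsUnique_pair d, fun a b h he => ?_⟩
  have h1 := coeff_nine hd h
  rw [he] at h1
  have h2 : coeff (ind (nine hd)) (altChar k d) =
      (Module.finrank k (altComponent k d (ind (nine hd))) : ℤ) := rfl
  rw [h2] at h1
  have h3 := le_finrank k hd
  omega

end Pool.Agent.Y80.Shang
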