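import Pool.Agent.Y80.Shang.Symm

set_option autoImplicit false

namespace Pool.Agent.Y80.Shang

theorem solve (A B : ℕ → ℤ) (h0 : ∀ n, 1 ≤ n → n ≤ 9 → mult (0, 0) (PP A B n) = 0)
    (h1 : ∀ n, 1 ≤ n → n ≤ 9 → mult (1, 1) (PP A B n) = if n = 1 then -1 else 0) :
    A 9 = 336364 := by
  have P0 : PP A B 0 = pe [1] := by rw [PP_zero]; simp [pe]
  have Q1 : PP A B 1 = pe [] - (A 1 * adjC + B 1) := by
    rw [PP_succ]
    norm_num [Finset.sum_range_succ, Nat.choose, P0, pe]
    try ring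
  obtain ⟨a1, b1⟩ := solve_step A B 0 [] 1 0 (-1) (by simp) Q1
    (h0 1 (by norm_num) (by norm_num)) (by rw [h1 1 (by norm_num) (by norm_num)]; norm_num)
    (by decide +kernel) (by decide +kernel)
  have P1 : PP A B 1 = pe [0, -1] := by
    rw [Q1]
    norm_num [a1, b1, pe]
    try ring
  have Q2 : PP A B 2 = pe [0, 0, 1] - (A 2 * adjC + B 2) := by
    rw [PP_succ]
    norm_num [Finset.sum_range_succ, Nat.choose, P0, P1, a1, b1, pe]
    try ring
  obtain ⟨a2, b2⟩ := solve_step A B 1 [0, 0, 1] 2 1 0 (by simp) Q2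
    (h0 2 (by norm_num) (by norm_num)) (by rw [h1 2 (by norm_num) (by norm_num)]; norm_num)
    (by decide +kernel) (by decide +kernel)
  have P2 : PP A B 2 = pe [-1, -2, 1] := by
    rw [Q2]
    norm_num [a2, b2, pe]
    try ring
  have Q3 : PP A B 3 = pe [0, 3, 6, -1] - (A 3 * adjC + B 3) := by
    rw [PP_succ]
    norm_num [Finset.sum_range_succ, Nat.choose, P0, P1, P2, a1, b1, a2, b2, pe]
    try ring
  obtain ⟨a3, b3⟩ := solve_step A B 2 [0, 3, 6, -1] 7 4 0 (by simp) Q3
    (h0 3 (by norm_num) (by norm_num)) (by rw [h1 3 (by norm_num) (by norm_num)]; norm_num)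
    (by decide +kernel) (by decide +kernel)
  have P3 : PP A B 3 = pe [-4, -4, 6, -1] := by
    rw [Q3]
    norm_num [a3, b3, pe]
    try ring
  have Q4 : PP A B 4 = pe [3, 28, 34, -12, 1] - (A 4 * adjC + B 4) := by
    rw [PP_succ]
    norm_num [Finset.sum_range_succ, Nat.choose, P0, P1, P2, P3, a1, b1, a2, b2, a3, b3, pe]
    try ring
  obtain ⟨a4, b4⟩ := solve_step A B 3 [3, 28, 34, -12, 1] 32 21 0 (by simp) Q4
    (h0 4 (by norm_num) (by norm_num)) (by rw [h1 4 (by norm_num) (by norm_num)]; norm_num)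
    (by decide +kernel) (by decide +kernel)
  have P4 : PP A B 4 = pe [-18, -4, 34, -12, 1] := by
    rw [Q4]
    norm_num [a4, b4, pe]
    try ring
  have Q5 : PP A B 5 = pe [40, 240, 200, -120, 20, -1] - (A 5 * adjC + B 5) := by
    rw [PP_succ]
    norm_num [Finset.sum_range_succ, Nat.choose, P0, P1, P2, P3, P4, a1, b1, a2, b2, a3, b3, a4, b4, pe]
    try ring
  obtain ⟨a5, b5⟩ := solve_step A B 4 [40, 240, 200, -120, 20, -1] 175 128 0 (by simp) Q5
    (h0 5 (by norm_num) (by norm_num)) (by rw [h1 5 (by norm_num) (by norm_num)]; norm_num)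
    (by decide +kernel) (by decide +kernel)
  have P5 : PP A B 5 = pe [-88, 65, 200, -120, 20, -1] := by
    rw [Q5]
    norm_num [a5, b5, pe]
    try ring
  have Q6 : PP A B 6 = pe [460, 2108, 1150, -1180, 305, -30, 1] - (A 6 * adjC + B 6) := by
    rw [PP_succ]
    norm_num [Finset.sum_range_succ, Nat.choose, P0, P1, P2, P3, P4, P5, a1, b1, a2, b2, a3, b3, a4, b4, a5, b5, pe]
    try ring
  obtain ⟨a6, b6⟩ := solve_step A B 5 [460, 2108, 1150, -1180, 305, -30, 1] 1080 875 0 (by simp) Q6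
    (h0 6 (by norm_num) (by norm_num)) (by rw [h1 6 (by norm_num) (by norm_num)]; norm_num)
    (by decide +kernel) (by decide +kernel)
  have P6 : PP A B 6 = pe [-415, 1028, 1150, -1180, 305, -30, 1] := by
    rw [Q6]
    norm_num [a6, b6, pe]
    try ring
  have Q7 : PP A B 7 = pe [5208, 19166, 5222, -11725, 4340, -644, 42, -1] - (A 7 * adjC + B 7) := by
    rw [PP_succ]
    norm_num [Finset.sum_range_succ, Nat.choose, P0, P1, P2, P3, P4, P5, P6, a1, b1, a2, b2, a3, b3, a4, b4, a5, b5, a6, b6, pe]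
    try ring
  obtain ⟨a7, b7⟩ := solve_step A B 6 [5208, 19166, 5222, -11725, 4340, -644, 42, -1] 7196 6480 0 (by simp) Q7
    (h0 7 (by norm_num) (by norm_num)) (by rw [h1 7 (by norm_num) (by norm_num)]; norm_num)
    (by decide +kernel) (by decide +kernel)
  have P7 : PP A B 7 = pe [-1272, 11970, 5222, -11725, 4340, -644, 42, -1] := by
    rw [Q7]
    norm_num [a7, b7, pe]
    try ring
  have Q8 : PP A B 8 = pe [59822, 177672, -6300, -116592, 60900, -12376, 1204, -56, 1] - (A 8 * adjC + B 8) := by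
    rw [PP_succ]
    norm_num [Finset.sum_range_succ, Nat.choose, P0, P1, P2, P3, P4, P5, P6, P7, a1, b1, a2, b2, a3, b3, a4, b4, a5, b5, a6, b6, a7, b7, pe]
    try ring
  obtain ⟨a8, b8⟩ := solve_step A B 7 [59822, 177672, -6300, -116592, 60900, -12376, 1204, -56, 1] 49616 50372 0 (by simp) Q8
    (h0 8 (by norm_num) (by norm_num)) (by rw [h1 8 (by norm_num) (by norm_num)]; norm_num)
    (by decide +kernel) (by decide +kernel)
  have P8 : PP A B 8 = pe [9450, 128056, -6300, -116592, 60900, -12376, 1204, -56, 1] := by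
    rw [Q8]
    norm_num [a8, b8, pe]
    try ring
  have Q9 : PP A B 9 = pe [698864, 1624206, -732576, -1118320, 856632, -228522, 29904, -2064, 72, -1] - (A 9 * adjC + B 9) := by
    rw [PP_succ]
    norm_num [Finset.sum_range_succ, Nat.choose, P0, P1, P2, P3, P4, P5, P6, P7, P8, a1, b1, a2, b2, a3, b3, a4, b4, a5, b5, a6, b6, a7, b7, a8, b8, pe]
    try ring
  obtain ⟨a9, b9⟩ := solve_step A B 8 [698864, 1624206, -732576, -1118320, 856632, -228522, 29904, -2064, 72, -1] 336364 396928 0 (by simp) Q9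
    (h0 9 (by norm_num) (by norm_num)) (by rw [h1 9 (by norm_num) (by norm_num)]; norm_num)
    (by decide +kernel) (by decide +kernel)
  exact a9

end Pool.Agent.Y80.Shang
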