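import Pool.Agent.Y80.Shang.Series

set_option autoImplicit false

namespace Pool.Agent.Y80.Shang

open MvPowerSeries

variable {d : ℕ}

/-- squarefree exponent -/
def Sqf (β : Fin d →₀ ℕ) : Prop := ∀ i, β i ≤ 1

theorem Sqf.not_add_le {β α : Fin d →₀ ℕ} (h : Sqf β) (hα : α ≠ 0) : ¬ (α + α ≤ β) := by
  intro hle
  apply hα
  ext i
  have h1 := hle i
  have h2 := h i
  simp only [Finsupp.add_apply] at h1
  simp only [Finsupp.coe_zero, Pi.zero_apply]
  omega

theorem Sqf.mono {β γ : Fin d →₀ ℕ} (h : Sqf β) (hγ : γ ≤ β) : Sqf γ :=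
  fun i => le_trans (hγ i) (h i)

/-- linear coefficient -/
noncomputable def cc (F : (Fin d →₀ ℕ) → ℤ × ℤ) (α : Fin d →₀ ℕ) : TorusChar :=
  (F α).1 * adjC + (F α).2

open Classical in
theorem pivot (F : (Fin d →₀ ℕ) → ℤ × ℤ) (i : Fin d) (s : Finset (Fin d →₀ ℕ)) (h0 : 0 ∉ s) :
    ∀ β : Fin d →₀ ℕ, Sqf β → β i = 1 →
      coeff β (∏ α ∈ s, lamTerm α (F α).1 (F α).2) =
        - ∑ α ∈ s, if α ≤ β ∧ α i = 1 then
          cc F α * coeff (β - α) (∏ α ∈ s, lamTerm α (F α).1 (F α).2) else 0 := by
  induction s using Finset.induction_on with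
  | empty =>
    intro β _ hi
    have : β ≠ 0 := by rintro rfl; simp at hi
    simp [MvPowerSeries.coeff_one, this]
  | insert α₀ s ha ih =>
    have h0' : 0 ∉ s := fun h => h0 (Finset.mem_insert_of_mem h)
    have hα₀ : α₀ ≠ 0 := by rintro rfl; exact h0 (Finset.mem_insert_self _ _)
    intro β hβ hi
    rw [Finset.prod_insert ha]
    set G := ∏ α ∈ s, lamTerm α (F α).1 (F α).2 with hG
    have key : ∀ γ : Fin d →₀ ℕ, Sqf γ → coeff γ (lamTerm α₀ (F α₀).1 (F α₀).2 * G) =
        coeff γ G - if α₀ ≤ γ then cc F α₀ * coeff (γ - α₀) G else 0 :=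
      fun γ hγ => coeff_lamTerm_mul (hγ.not_add_le hα₀) _ _ _
    rw [key β hβ, Finset.sum_insert ha]
    have IH := ih h0'
    by_cases h1 : α₀ ≤ β
    · by_cases h2 : α₀ i = 1
      · -- pivot inside the new exponent
        have hne : ∀ γ : Fin d →₀ ℕ, γ ≤ β → γ i = 1 → ¬ (α₀ ≤ β - γ) := by
          intro γ _ hγi hle
          have := hle i
          rw [Finsupp.tsub_apply, hi, hγi, h2] at this
          omega
        rw [if_pos h1, if_pos ⟨h1, h2⟩, key (β - α₀) (hβ.mono tsub_le_self),
          if_neg (hne α₀ h1 h2), sub_zero, IH β hβ hi]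
        have : ∑ α ∈ s, (if α ≤ β ∧ α i = 1 then
            cc F α * coeff (β - α) (lamTerm α₀ (F α₀).1 (F α₀).2 * G) else 0) =
            ∑ α ∈ s, (if α ≤ β ∧ α i = 1 then cc F α * coeff (β - α) G else 0) := by
          apply Finset.sum_congr rfl
          intro α _
          split_ifs with h
          · rw [key _ (hβ.mono tsub_le_self), if_neg (hne α h.1 h.2), sub_zero]
          · rfl
        rw [this]
        ring
      · rw [if_pos h1, if_neg (fun h => h2 h.2), zero_add]
        have h2' : α₀ i = 0 := by
          have := h1 i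
          omega
        have hγi : (β - α₀) i = 1 := by rw [Finsupp.tsub_apply, hi, h2']
        have e2 := IH (β - α₀) (hβ.mono tsub_le_self) hγi
        have e1 := IH β hβ hi
        have : ∑ α ∈ s, (if α ≤ β ∧ α i = 1 then
            cc F α * coeff (β - α) (lamTerm α₀ (F α₀).1 (F α₀).2 * G) else 0) =
            ∑ α ∈ s, (if α ≤ β ∧ α i = 1 then cc F α * coeff (β - α) G else 0) -
            cc F α₀ * ∑ α ∈ s, (if α ≤ β - α₀ ∧ α i = 1 then
              cc F α * coeff (β - α₀ - α) G else 0) := by
          rw [Finset.mul_sum, ← Finset.sum_sub_distrib]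
          apply Finset.sum_congr rfl
          intro α _
          by_cases h : α ≤ β ∧ α i = 1
          · rw [if_pos h, if_pos h, key _ (hβ.mono tsub_le_self)]
            by_cases h3 : α₀ ≤ β - α
            · have h4 : α ≤ β - α₀ := by
                intro j
                have a1 := h3 j
                have a2 := h.1 j
                have a3 := h1 j
                simp only [Finsupp.tsub_apply] at a1 ⊢
                omega
              rw [if_pos h3, if_pos ⟨h4, h.2⟩, tsub_right_comm]
              ring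
            · have h4 : ¬ (α ≤ β - α₀) := by
                intro h4
                apply h3
                intro j
                have a1 := h4 j
                have a2 := h.1 j
                have a3 := h1 j
                simp only [Finsupp.tsub_apply] at a1 ⊢
                omega
              rw [if_neg h3, if_neg (fun h => h4 h.1)]
              ring
          · rw [if_neg h, if_neg h, if_neg]
            · ring
            · rintro ⟨h3, h4⟩
              exact h ⟨le_trans h3 tsub_le_self, h4⟩
        rw [this, e1, e2]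
        ring
    · rw [if_neg h1, if_neg (fun h => h1 h.1), sub_zero, zero_add, IH β hβ hi]
      congr 1
      apply Finset.sum_congr rfl
      intro α _
      split_ifs with h
      · rw [key _ (hβ.mono tsub_le_self), if_neg, sub_zero]
        intro h3
        exact h1 (le_trans h3 tsub_le_self)
      · rfl

theorem phi_eq_coeff (a b : MvPowerSeries (Fin d) ℤ) (β γ : Fin d →₀ ℕ) (h : γ ≤ β) :
    coeff γ (∏ α ∈ (Finset.Icc 0 β).erase 0, lamTerm α (coeff α a) (coeff α b)) = phi a b γ := by
  classical
  have h1 := coeff_prod_filter (β := γ) (fun α => (coeff α a, coeff α b))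
    ((Finset.Icc 0 β).erase 0)
  simp only at h1
  rw [h1, phi]
  congr 1
  apply Finset.prod_congr _ (fun _ _ => rfl)
  ext α
  simp only [Finset.mem_filter, Finset.mem_erase, Finset.mem_Icc]
  constructor
  · rintro ⟨⟨h1, h2, h3⟩, h4⟩
    exact ⟨h1, h2, h4⟩
  · rintro ⟨h1, h2, h3⟩
    exact ⟨⟨h1, h2, le_trans h3 h⟩, h3⟩

theorem phi_zero (a b : MvPowerSeries (Fin d) ℤ) : phi a b 0 = 1 := by
  simp [phi]

open Classical in
theorem phi_pivot (a b : MvPowerSeries (Fin d) ℤ) (β : Fin d →₀ ℕ) (hβ : Sqf β) (i : Fin d)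
    (hi : β i = 1) :
    phi a b β = - ∑ α ∈ Finset.Icc 0 β with α i = 1,
      (coeff α a * adjC + coeff α b) * phi a b (β - α) := by
  have h := pivot (fun α => (coeff α a, coeff α b)) i ((Finset.Icc 0 β).erase 0) (by simp) β hβ hi
  simp only at h
  have hs : ((Finset.Icc 0 β).erase 0).filter (fun α => α ≤ β ∧ α i = 1) =
      (Finset.Icc 0 β).filter (fun α => α i = 1) := by
    ext α
    simp only [Finset.mem_filter, Finset.mem_erase, Finset.mem_Icc]
    constructor
    · rintro ⟨⟨_, h2⟩, _, h4⟩
      exact ⟨h2, h4⟩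
    · rintro ⟨h1, h2⟩
      refine ⟨⟨?_, h1⟩, h1.2, h2⟩
      rintro rfl
      simp at h2
  rw [phi, h, ← Finset.sum_filter, hs, neg_inj]
  refine Finset.sum_congr rfl fun α _ => ?_
  rw [phi_eq_coeff a b β (β - α) tsub_le_self, cc]

/-- indicator exponent -/
noncomputable def ind (T : Finset (Fin d)) : Fin d →₀ ℕ :=
  Finsupp.equivFunOnFinite.symm fun i => if i ∈ T then 1 else 0

theorem ind_apply (T : Finset (Fin d)) (i : Fin d) : ind T i = if i ∈ T then 1 else 0 := rfl

theorem ind_empty : ind (∅ : Finset (Fin d)) = 0 := by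
  ext i; simp [ind_apply]

theorem sqf_ind (T : Finset (Fin d)) : Sqf (ind T) := by
  intro i; rw [ind_apply]; split_ifs <;> simp

theorem ind_inj : Function.Injective (ind (d := d)) := by
  intro S T h
  ext i
  have := DFunLike.congr_fun h i
  rw [ind_apply, ind_apply] at this
  split_ifs at this with h1 h2 h2 <;> simp_all

theorem ind_le {S T : Finset (Fin d)} : ind T ≤ ind S ↔ T ⊆ S := by
  constructor
  · intro h i hi
    have := h i
    rw [ind_apply, ind_apply, if_pos hi] at this
    by_contra h2
    rw [if_neg h2] at this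
    omega
  · intro h i
    rw [ind_apply, ind_apply]
    split_ifs with h1 h2
    · exact le_rfl
    · exact absurd (h h1) h2
    · simp
    · simp

theorem ind_sub (S T : Finset (Fin d)) : ind S - ind T = ind (S \ T) := by
  ext i
  rw [Finsupp.tsub_apply, ind_apply, ind_apply, ind_apply]
  by_cases h1 : i ∈ S <;> by_cases h2 : i ∈ T <;> simp [h1, h2]

theorem exists_ind {β : Fin d →₀ ℕ} (h : Sqf β) : ∃ T, β = ind T := by
  refine ⟨β.support, ?_⟩
  ext i
  rw [ind_apply]
  split_ifs with h1
  · have := h i
    rw [Finsupp.mem_support_iff] at h1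
    omega
  · simpa using h1

theorem phi_ind (a b : MvPowerSeries (Fin d) ℤ) (S : Finset (Fin d)) (i : Fin d) (hi : i ∉ S) :
    phi a b (ind (insert i S)) = - ∑ T ∈ S.powerset,
      (coeff (ind (insert i T)) a * adjC + coeff (ind (insert i T)) b) *
        phi a b (ind (S \ T)) := by
  classical
  rw [phi_pivot a b _ (sqf_ind _) i (by simp [ind_apply])]
  congr 1
  have himg : (Finset.Icc 0 (ind (insert i S))).filter (fun α => α i = 1) =
      S.powerset.image (fun T => ind (insert i T)) := by
    ext α
    simp only [Finset.mem_filter, Finset.mem_Icc, Finset.mem_image, Finset.mem_powerset]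
    constructor
    · rintro ⟨⟨_, h2⟩, h3⟩
      obtain ⟨T, rfl⟩ := exists_ind ((sqf_ind (insert i S)).mono h2)
      rw [ind_le] at h2
      have hiT : i ∈ T := by
        by_contra h
        rw [ind_apply, if_neg h] at h3
        omega
      refine ⟨T.erase i, ?_, by rw [Finset.insert_erase hiT]⟩
      intro j hj
      rw [Finset.mem_erase] at hj
      exact Finset.mem_of_mem_insert_of_ne (h2 hj.2) hj.1
    · rintro ⟨T, hT, rfl⟩
      refine ⟨⟨bot_le, ind_le.mpr (Finset.insert_subset_insert _ hT)⟩, by simp [ind_apply]⟩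
  rw [himg, Finset.sum_image]
  · apply Finset.sum_congr rfl
    intro T hT
    rw [Finset.mem_powerset] at hT
    rw [ind_sub]
    have : insert i S \ insert i T = S \ T := by
      ext j
      simp only [Finset.mem_sdiff, Finset.mem_insert]
      by_cases hj : j = i
      · subst hj; simp [hi]
      · simp [hj]
    rw [this]
  · intro T hT T' hT' h
    have hT := Finset.mem_powerset.mp hT
    have hT' := Finset.mem_powerset.mp hT'
    have := ind_inj h
    have h1 : i ∉ T := fun h => hi (hT h)
    have h2 : i ∉ T' := fun h => hi (hT' h)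
    rw [← Finset.erase_insert h1, this, Finset.erase_insert h2]

end Pool.Agent.Y80.Shang
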