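import Pool.Agent.Y80.Shang.Mult

set_option autoImplicit false

namespace Pool.Agent.Y80.Shang

open MvPowerSeries

variable {d : ℕ}

/-- series without terms below `β` -/
def lowIdeal (β : Fin d →₀ ℕ) : Ideal (Char d) where
  carrier := {f | ∀ γ ≤ β, coeff γ f = 0}
  zero_mem' := by intro γ _; simp
  add_mem' := by
    intro f g hf hg γ hγ
    simp [hf γ hγ, hg γ hγ]
  smul_mem' := by
    intro c f hf γ hγ
    rw [smul_eq_mul, coeff_mul]
    apply Finset.sum_eq_zero
    intro x hx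
    rw [Finset.HasAntidiagonal.mem_antidiagonal] at hx
    rw [hf x.2 (le_trans (by rw [← hx]; exact le_add_self) hγ), mul_zero]

theorem mem_lowIdeal (β : Fin d →₀ ℕ) (f : Char d) :
    f ∈ lowIdeal β ↔ ∀ γ ≤ β, coeff γ f = 0 := Iff.rfl

/-- `f ≡ 1 - c x^α` up to terms not below `β` -/
def Lin (β α : Fin d →₀ ℕ) (f : Char d) (c : TorusChar) : Prop :=
  Ideal.Quotient.mk (lowIdeal β) f =
    1 - Ideal.Quotient.mk (lowIdeal β) (C c) * Ideal.Quotient.mk (lowIdeal β) (monomial α 1)

theorem sq_zero (β α : Fin d →₀ ℕ) (h : ¬ (α + α ≤ β)) :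
    Ideal.Quotient.mk (lowIdeal β) (monomial α (1 : TorusChar)) *
      Ideal.Quotient.mk (lowIdeal β) (monomial α 1) = 0 := by
  rw [← map_mul, Ideal.Quotient.eq_zero_iff_mem, mem_lowIdeal]
  intro γ hγ
  rw [monomial_mul_monomial, coeff_monomial, if_neg]
  rintro rfl
  exact h hγ

theorem Lin.one (β α : Fin d →₀ ℕ) : Lin β α 1 0 := by
  simp [Lin]

theorem Lin.mul {β α : Fin d →₀ ℕ} (h : ¬ (α + α ≤ β)) {f g : Char d} {c e : TorusChar}
    (hf : Lin β α f c) (hg : Lin β α g e) : Lin β α (f * g) (c + e) := by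
  have hX := sq_zero β α h
  unfold Lin at *
  rw [map_mul, hf, hg, map_add, map_add]
  linear_combination (Ideal.Quotient.mk (lowIdeal β) (C c)) *
    (Ideal.Quotient.mk (lowIdeal β) (C e)) * hX

theorem Lin.pow {β α : Fin d →₀ ℕ} (h : ¬ (α + α ≤ β)) {f : Char d} {c : TorusChar}
    (hf : Lin β α f c) (n : ℕ) : Lin β α (f ^ n) (n * c) := by
  induction n with
  | zero => simpa using Lin.one β α
  | succ n ih =>
    rw [pow_succ]
    have := Lin.mul h ih hf
    convert this using 1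
    push_cast
    ring

theorem Lin.inv {β α : Fin d →₀ ℕ} (h : ¬ (α + α ≤ β)) {f : Char d} {c : TorusChar}
    (hf : Lin β α f c) (h1 : constantCoeff f = 1) : Lin β α (invOfUnit f 1) (-c) := by
  have hX := sq_zero β α h
  have hi : invOfUnit f 1 * f = 1 := invOfUnit_mul f 1 (by simpa using h1)
  have hi' := congrArg (Ideal.Quotient.mk (lowIdeal β)) hi
  unfold Lin at *
  rw [map_mul, hf, map_one (Ideal.Quotient.mk (lowIdeal β))] at hi'
  rw [map_neg C, map_neg (Ideal.Quotient.mk (lowIdeal β))]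
  linear_combination (1 + Ideal.Quotient.mk (lowIdeal β) (C c) *
      Ideal.Quotient.mk (lowIdeal β) (monomial α 1)) * hi' +
    Ideal.Quotient.mk (lowIdeal β) (invOfUnit f 1) *
      (Ideal.Quotient.mk (lowIdeal β) (C c)) ^ 2 * hX

theorem Lin.zpw {β α : Fin d →₀ ℕ} (h : ¬ (α + α ≤ β)) {f : Char d} {c : TorusChar}
    (hf : Lin β α f c) (h1 : constantCoeff f = 1) (n : ℤ) :
    Lin β α (zpw f n) (n * c) := by
  unfold Shang.zpw
  split_ifs with hn
  · have := Lin.pow h hf n.toNat
    convert this using 2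
    rw [← Int.cast_natCast, Int.toNat_of_nonneg hn]
  · have := Lin.pow h (Lin.inv h hf h1) (-n).toNat
    convert this using 1
    rw [← Int.cast_natCast, Int.toNat_of_nonneg (by omega)]
    push_cast
    ring

theorem lin_lamOne (β α : Fin d →₀ ℕ) (μ : ℤ × ℤ) : Lin β α (lamOne α μ) (wt μ.1 μ.2) := by
  unfold Lin lamOne
  rw [map_sub, map_one (Ideal.Quotient.mk (lowIdeal β)), ← map_mul]
  congr 2
  ext γ
  simp [coeff_monomial]

theorem constantCoeff_lamOne {α : Fin d →₀ ℕ} (hα : α ≠ 0) (μ : ℤ × ℤ) :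
    constantCoeff (lamOne α μ) = 1 := by
  rw [lamOne, map_sub, map_one, ← coeff_zero_eq_constantCoeff_apply, coeff_monomial,
    if_neg (Ne.symm hα), sub_zero]

theorem lin_lamTerm {β α : Fin d →₀ ℕ} (h : ¬ (α + α ≤ β)) (p q : ℤ) :
    Lin β α (lamTerm α p q) (p * adjC + q) := by
  have hα : α ≠ 0 := by
    rintro rfl
    apply h
    rw [add_zero]
    exact bot_le
  have L : ∀ (μ : ℤ × ℤ) (n : ℤ), Lin β α (zpw (lamOne α μ) n) (n * wt μ.1 μ.2) :=
    fun μ n => Lin.zpw h (lin_lamOne β α μ) (constantCoeff_lamOne hα μ) n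
  unfold lamTerm roots
  simp only [List.map_cons, List.map_nil, List.prod_cons, List.prod_nil]
  have := Lin.mul h (L (0, 0) (2 * p + q)) (Lin.mul h (L (1, 0) p) (Lin.mul h (L (0, 1) p)
    (Lin.mul h (L (1, 1) p) (Lin.mul h (L (-1, 0) p) (Lin.mul h (L (0, -1) p)
      (Lin.mul h (L (-1, -1) p) (Lin.one β α)))))))
  convert this using 1
  simp only [wt_zero, adjC]
  push_cast
  ring

theorem coeff_lin_mul {β α : Fin d →₀ ℕ} {f : Char d} {c : TorusChar} (hf : Lin β α f c)
    (G : Char d) :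
    coeff β (f * G) = coeff β G - if α ≤ β then c * coeff (β - α) G else 0 := by
  have h1 : f - (1 - monomial α c) ∈ lowIdeal β := by
    rw [← Ideal.Quotient.eq_zero_iff_mem, map_sub, hf]
    rw [map_sub (Ideal.Quotient.mk (lowIdeal β)), map_one (Ideal.Quotient.mk (lowIdeal β)),
      ← map_mul]
    have : C c * monomial α (1 : TorusChar) = (monomial α c : Char d) := by
      ext γ
      simp [coeff_monomial]
    rw [this, sub_self]
  have h2 : (f - (1 - monomial α c)) * G ∈ lowIdeal β := Ideal.mul_mem_right _ _ h1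
  have h3 := h2 β le_rfl
  have h4 : (f - (1 - monomial α c)) * G = f * G - G + monomial α c * G := by ring
  rw [h4, map_add, map_sub, coeff_monomial_mul] at h3
  linear_combination h3

theorem coeff_lamTerm_mul {β α : Fin d →₀ ℕ} (h : ¬ (α + α ≤ β)) (p q : ℤ) (G : Char d) :
    coeff β (lamTerm α p q * G) =
      coeff β G - if α ≤ β then (p * adjC + q) * coeff (β - α) G else 0 :=
  coeff_lin_mul (lin_lamTerm h p q) G

theorem constantCoeff_lamTerm {α : Fin d →₀ ℕ} (hα : α ≠ 0) (p q : ℤ) :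
    constantCoeff (lamTerm α p q) = 1 := by
  have h : ¬ (α + α ≤ 0) := by
    intro h
    apply hα
    have : α ≤ 0 := le_trans le_self_add h
    exact le_antisymm this bot_le
  have := coeff_lamTerm_mul h p q 1
  rw [mul_one, if_neg (fun h' => hα (le_antisymm h' bot_le))] at this
  simpa using this

/-- factors with exponent not below `β` do not matter -/
theorem coeff_prod_irrelevant {β : Fin d →₀ ℕ} (F : (Fin d →₀ ℕ) → ℤ × ℤ)
    (s : Finset (Fin d →₀ ℕ)) (hs : ∀ α ∈ s, ¬ α ≤ β) (G : Char d) :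
    coeff β ((∏ α ∈ s, lamTerm α (F α).1 (F α).2) * G) = coeff β G := by
  classical
  induction s using Finset.induction_on with
  | empty => simp
  | insert α s ha ih =>
    rw [Finset.prod_insert ha, mul_assoc]
    have hα : ¬ α ≤ β := hs α (Finset.mem_insert_self _ _)
    rw [coeff_lamTerm_mul (fun h => hα (le_trans le_self_add h)), if_neg hα, sub_zero]
    exact ih fun x hx => hs x (Finset.mem_insert_of_mem hx)

theorem coeff_prod_filter {β : Fin d →₀ ℕ} (F : (Fin d →₀ ℕ) → ℤ × ℤ)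
    (s : Finset (Fin d →₀ ℕ)) [DecidablePred fun α : Fin d →₀ ℕ => α ≤ β] :
    coeff β (∏ α ∈ s, lamTerm α (F α).1 (F α).2) =
      coeff β (∏ α ∈ s with α ≤ β, lamTerm α (F α).1 (F α).2) := by
  rw [← Finset.prod_filter_not_mul_prod_filter s (fun α => α ≤ β)]
  exact coeff_prod_irrelevant F _ (by intro α hα; exact (Finset.mem_filter.mp hα).2) _

end Pool.Agent.Y80.Shang
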