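import Pool.Agent.Y80.Shang.Recursion

set_option autoImplicit false

namespace Pool.Agent.Y80.Shang

open MvPowerSeries

variable {d : ℕ}

theorem ind_mapDomain (S : Finset (Fin d)) (σ : Equiv.Perm (Fin d)) :
    (ind S).mapDomain σ = ind (S.map σ.toEmbedding) := by
  ext i
  rw [ind_apply]
  have h : i = σ (σ.symm i) := by simp
  rw [h, Finsupp.mapDomain_apply σ.injective, ind_apply]
  simp

theorem coeff_ind_eq {a : MvPowerSeries (Fin d) ℤ} (ha : InAug a) {S T : Finset (Fin d)}
    (h : S.card = T.card) : coeff (ind S) a = coeff (ind T) a := by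
  classical
  have e : {x // x ∈ S} ≃ {x // x ∈ T} := Fintype.equivOfCardEq (by simpa using h)
  let σ : Equiv.Perm (Fin d) := e.extendSubtype
  have hσ : S.map σ.toEmbedding = T := by
    apply Finset.eq_of_subset_of_card_le
    · intro y hy
      rw [Finset.mem_map] at hy
      obtain ⟨x, hx, rfl⟩ := hy
      exact e.extendSubtype_mem x hx
    · rw [Finset.card_map, h]
  rw [← hσ, ← ind_mapDomain]
  exact (ha.2 σ (ind S)).symm

/-- the sequence defined by the recursion -/
noncomputable def PP (A B : ℕ → ℤ) : ℕ → TorusChar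
  | 0 => 1
  | n + 1 => - ∑ k : Fin (n + 1), (n.choose k) •
      ((A (k + 1) * adjC + B (k + 1)) * PP A B (n - k))
  decreasing_by omega

theorem PP_zero (A B : ℕ → ℤ) : PP A B 0 = 1 := by rw [PP]

theorem PP_succ (A B : ℕ → ℤ) (n : ℕ) : PP A B (n + 1) =
    - ∑ k ∈ Finset.range (n + 1), (n.choose k) •
      ((A (k + 1) * adjC + B (k + 1)) * PP A B (n - k)) := by
  rw [PP, Finset.sum_range fun k => (n.choose k) •
      ((A (k + 1) * adjC + B (k + 1)) * PP A B (n - k))]

theorem phi_ind_eq {a b : MvPowerSeries (Fin d) ℤ} (A B : ℕ → ℤ)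
    (hA : ∀ S : Finset (Fin d), coeff (ind S) a = A S.card)
    (hB : ∀ S : Finset (Fin d), coeff (ind S) b = B S.card) :
    ∀ (n : ℕ) (S : Finset (Fin d)), S.card = n → phi a b (ind S) = PP A B n := by
  classical
  intro n
  induction n using Nat.strong_induction_on with
  | _ n ih =>
    intro S hS
    cases n with
    | zero =>
      rw [Finset.card_eq_zero] at hS
      subst hS
      rw [ind_empty, phi_zero, PP_zero]
    | succ n =>
      obtain ⟨i, S', hi, rfl, hc⟩ := Finset.card_eq_succ.mp hS
      rw [phi_ind a b S' i hi, PP_succ, ← hc, neg_inj]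
      rw [← Finset.sum_powerset_apply_card (fun k => (A (k + 1) * adjC + B (k + 1)) *
        PP A B (S'.card - k))]
      refine Finset.sum_congr rfl fun T hT => ?_
      rw [Finset.mem_powerset] at hT
      have h1 : (insert i T).card = T.card + 1 :=
        Finset.card_insert_of_notMem fun h => hi (hT h)
      have h2 : (S' \ T).card = S'.card - T.card := Finset.card_sdiff_of_subset hT
      rw [hA, hB, h1, ih (S'.card - T.card) (by omega) (S' \ T) h2]

theorem exists_seq {a : MvPowerSeries (Fin d) ℤ} (ha : InAug a) :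
    ∃ A : ℕ → ℤ, ∀ S : Finset (Fin d), coeff (ind S) a = A S.card := by
  classical
  refine ⟨fun n => if h : ∃ S : Finset (Fin d), S.card = n then coeff (ind h.choose) a else 0, ?_⟩
  intro S
  have h : ∃ T : Finset (Fin d), T.card = S.card := ⟨S, rfl⟩
  simp only [h, dif_pos]
  exact coeff_ind_eq ha h.choose_spec.symm

/-- polynomials in the adjoint character -/
noncomputable def pe : List ℤ → TorusChar
  | [] => 0
  | a :: l => a + adjC * pe l

def dot (m : ℕ → ℤ) : ℕ → List ℤ → ℤ
  | _, [] => 0
  | j, a :: l => a * m j + dot m (j + 1) l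

theorem mult_pe (μ : ℤ × ℤ) (m : ℕ → ℤ) (hm : ∀ n < 10, mult μ (adjC ^ n) = m n) (l : List ℤ) :
    ∀ j, j + l.length ≤ 10 → mult μ (adjC ^ j * pe l) = dot m j l := by
  induction l with
  | nil => intro j _; simp [pe, dot, mult]
  | cons a l ih =>
    intro j hj
    rw [List.length_cons] at hj
    have : adjC ^ j * pe (a :: l) = a • adjC ^ j + adjC ^ (j + 1) * pe l := by
      rw [pe, zsmul_eq_mul]; ring
    rw [this, mult_add, mult_smul, hm j (by omega), ih (j + 1) (by omega), dot]

def l0 : List ℤ := [1, 0, 1, 2, 8, 32, 145, 702, 3598, 19280]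
def l1 : List ℤ := [0, 1, 2, 8, 32, 145, 702, 3598, 19280, 107160]

theorem mult0_pe (l : List ℤ) (hl : l.length ≤ 10) :
    mult (0, 0) (pe l) = dot (fun n => l0.getD n 0) 0 l := by
  have := mult_pe (0, 0) (fun n => l0.getD n 0) (fun n hn => m0 n hn) l 0 (by simpa using hl)
  simpa using this

theorem mult1_pe (l : List ℤ) (hl : l.length ≤ 10) :
    mult (1, 1) (pe l) = dot (fun n => l1.getD n 0) 0 l := by
  have := mult_pe (1, 1) (fun n => l1.getD n 0) (fun n hn => m1 n hn) l 0 (by simpa using hl)
  simpa using this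

/-- one step of the solution: knowing the remainder gives the next coefficients -/
theorem solve_step (A B : ℕ → ℤ) (n : ℕ) (R : List ℤ) (x y z : ℤ) (hR : R.length ≤ 10)
    (hx : PP A B (n + 1) = pe R - (A (n + 1) * adjC + B (n + 1)))
    (h0 : mult (0, 0) (PP A B (n + 1)) = 0) (h1 : mult (1, 1) (PP A B (n + 1)) = z)
    (hy : dot (fun n => l0.getD n 0) 0 R = y) (hz : dot (fun n => l1.getD n 0) 0 R - z = x) :
    A (n + 1) = x ∧ B (n + 1) = y := by
  have e : PP A B (n + 1) = pe R + pe [-B (n + 1), -A (n + 1)] := by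
    rw [hx]
    simp only [pe]
    push_cast
    ring
  rw [e, mult_add, mult0_pe R hR, mult0_pe _ (by simp)] at h0
  rw [e, mult_add, mult1_pe R hR, mult1_pe _ (by simp)] at h1
  have hz' : dot (fun n => l1.getD n 0) 0 R = x + z := by linarith
  rw [hy] at h0
  rw [hz'] at h1
  simp only [dot, l0, l1, List.getD_cons_zero, List.getD_cons_succ] at h0 h1
  constructor <;> linarith

end Pool.Agent.Y80.Shang
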